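import Pool.Agent.R537.LK.Fin

/-!
# The Hopf sign in codimension two, normal metric of any signature

`gaussQ q h` is the tensor which the Gauss equation gives for the second fundamental form
`h 0 ξ₀ + h 1 ξ₁` with values in a normal plane with inner products `⟨ξ i, ξ j⟩ = q i j`. The normal
metric may be positive definite, Lorentzian, negative definite or degenerate: this is the extrinsic
part of the curvature of a spacelike submanifold of codimension at most two of a pseudo-Riemannian
manifold.

(1) If the sectional values of `gaussQ q h` are nonpositive, then its curvature operator is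
nonpositive, in every dimension.
(2) Hence the pointwise Hopf sign, with the sharp bound, in every even dimension, for spacelike
submanifolds of codimension two of pseudo-Riemannian space forms of curvature `-c ≤ 0` with
nonpositive extrinsic curvature.
(3) More generally for all sums of a tensor with `TwoSkew δ` (for instance one with curvature
operator at most `-δ`) and finitely many tensors `gaussQ q h` with nonpositive sectional values.
(4) The integrated forms.
-/

set_option autoImplicit false

namespace Pool.Agent.Results.MP_5a30bb_gt.CodimensionTwoAnySignature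

open Pool.Agent.W666.GB Pool.Agent.W669.HD Pool.Agent.Y195.HF Pool.Agent.R537.LK MeasureTheory

theorem result :
    (∀ (V : Type) [NormedAddCommGroup V] [InnerProductSpace ℝ V] [FiniteDimensional ℝ V]
      (q : Fin 2 → Fin 2 → ℝ) (h : Fin 2 → V → V → ℝ), (∀ i j, q i j = q j i) →
      (∀ i, SymForm (h i)) →
        ((∀ x y, gaussQ q h x y x y ≤ 0) ↔ OpNonneg (negT (gaussQ q h)))) ∧
    (∀ (m : ℕ) (V : Type) [NormedAddCommGroup V] [InnerProductSpace ℝ V]
      (e : OrthonormalBasis (Fin m × Bool) ℝ V) (q : Fin 2 → Fin 2 → ℝ)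
      (h : Fin 2 → V → V → ℝ) (c : ℝ), (∀ i j, q i j = q j i) → (∀ i, SymForm (h i)) →
      (∀ x y, gaussQ q h x y x y ≤ 0) → 0 ≤ c →
        CodimTwoType c (fun x y z w => gaussQ q h x y z w - c * unitT x y z w) ∧
        roundGB m c ≤ (-1) ^ m * gbc e fun x y z w => gaussQ q h x y z w - c * unitT x y z w) ∧
    (∀ (m : ℕ) (V : Type) [NormedAddCommGroup V] [InnerProductSpace ℝ V]
      (e : OrthonormalBasis (Fin m × Bool) ℝ V) (R : V → V → V → V → ℝ) (δ : ℝ),
      AlgCurv R → 0 ≤ δ → CodimTwoType δ R → roundGB m δ ≤ (-1) ^ m * gbc e R) ∧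
    (∀ (m : ℕ) (M : Type) [MeasurableSpace M] (μ : Measure M) (K : CurvField m M) (δ : M → ℝ),
      (∀ p, 0 ≤ δ p ∧ CodimTwoType (δ p) (K.R p)) →
      0 ≤ (-1) ^ m * ∫ p, K.gb p ∂μ ∧
        (Integrable K.gb μ → ∫ p, roundGB m (δ p) ∂μ ≤ (-1) ^ m * ∫ p, K.gb p ∂μ)) :=
  ⟨fun V _ _ _ _ _ hq hh => gaussQ_iff (stdOrthonormalBasis ℝ V) hq hh,
    fun _ _ _ _ e _ _ c hq hh hK hc => ⟨form_type hq hh hK c, form_bound e hq hh hK hc⟩,
    fun _ _ _ _ e _ _ hR hδ h => type_bound e hR hδ h,
    fun _ _ _ μ K δ h => field_type μ K δ h⟩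

end Pool.Agent.Results.MP_5a30bb_gt.CodimensionTwoAnySignature
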