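import Pool.Agent.R735.HA.GeoH

/-!
# The sign of the Gauss–Bonnet–Chern integrand: complex sectional curvature and one complex hyperplane

Let `n = 2 m` be any even dimension. If at a point of a Riemannian `n`-manifold all complex
sectional curvatures are at most `-κ` (with `κ ≥ 0`) and the curvature operator is nonpositive on
the complex bivectors of ONE complex hyperplane of the complexified tangent space, then `(-1)^m`
times the Gauss–Bonnet–Chern integrand is at least its value for the constant curvature `-κ`. The
hyperplane need not be the complexification of a real one: the kernel of any complex covector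
`α + i β` is allowed, for instance an isotropic one.

The complexified tangent space is brought by a unitary map to the form in which the hyperplane is a
coordinate hyperplane; the form `R^ℂ (·, conj ·)` is then no longer real, but the Gaussian integral
argument of the real case works for Hermitian forms.
-/

set_option autoImplicit false

namespace Pool.Agent.Results.MP_5a30bb_gt.ComplexHyperplane

open Pool.Agent.W666.GB Pool.Agent.TH598.GV Pool.Agent.R735.HA MeasureTheory

/-- **Hopf sign, every even dimension, under nonpositive complex sectional curvature and a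
curvature operator that is nonpositive on the complex bivectors of one complex hyperplane**: the
pointwise inequality, its strict form and the integrated forms. -/
theorem result :
    (∀ (m : ℕ) (V : Type) [NormedAddCommGroup V] [InnerProductSpace ℝ V]
      (e : OrthonormalBasis (Fin m × Bool) ℝ V) (R : V → V → V → V → ℝ), AlgCurv R →
      ∀ α β : V, (α ≠ 0 ∨ β ≠ 0) → OpNonposCx R α β →
        (∀ κ : ℝ, 0 ≤ κ → CxNonpos (shiftT R κ) → roundGB m κ ≤ (-1) ^ m * gbc e R) ∧
        (CxNeg R → 0 < (-1) ^ m * gbc e R)) ∧
    (∀ (m : ℕ) (M : Type) [MeasurableSpace M] (μ : Measure M) (K : CurvField m M) (κ : M → ℝ),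
      (∀ p, 0 ≤ κ p ∧ CxNonpos (shiftT (K.R p) (κ p)) ∧ ∃ α β : K.V p,
        (α ≠ 0 ∨ β ≠ 0) ∧ OpNonposCx (K.R p) α β) →
      0 ≤ (-1) ^ m * ∫ p, K.gb p ∂μ ∧
      (Integrable K.gb μ → Integrable (fun p => roundGB m (κ p)) μ →
        ∫ p, roundGB m (κ p) ∂μ ≤ (-1) ^ m * ∫ p, K.gb p ∂μ) ∧
      (Integrable K.gb μ → μ {p | CxNeg (K.R p)} ≠ 0 → 0 < (-1) ^ m * ∫ p, K.gb p ∂μ)) :=
  ⟨fun _ _ _ _ e _ hR α β hαβ hO => ⟨fun _ hκ hC => pointH e hR hκ hC α β hαβ hO,
    fun hC => pointH_strict e hR hC α β hαβ hO⟩,
    fun _ _ _ μ K κ h => fieldH μ K κ h⟩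

end Pool.Agent.Results.MP_5a30bb_gt.ComplexHyperplane
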