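import Pool.Agent.R735.HA.Geo

/-!
# The Hopf sign in dimension six when the bound of the complex sectional curvatures is attained at an
eigenbivector

At a point of a Riemannian six-manifold let all complex sectional curvatures be at most `-κ`, with
`κ ≥ 0`, and let the bound be attained at a decomposable complex bivector `z ∧ w` which is an
eigenbivector of the curvature operator. Then minus the Gauss–Bonnet–Chern integrand is at least its
value for the constant curvature `-κ`. For `κ = 0` the second hypothesis says that some decomposable
complex bivector is in the kernel of the curvature operator; it holds for every Kähler curvature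
tensor.

The proof is in `Pool/Agent/R735/HA/` and the files it imports. In a unitary frame which begins with
`z`, `w` the integrand is a Gaussian integral over pairs of vectors of the complement of the plane of
`z`, `w`; it is disintegrated over the planes spanned by the pairs, and on every leaf the inequality
is the commutation relation of the Fock space.
-/

set_option autoImplicit false

namespace Pool.Agent.Results.MP_5a30bb_gt.ExtremalBivector

open Pool.Agent.W666.GB Pool.Agent.TH598.GV Pool.Agent.R735.HA MeasureTheory

/-- **Hopf sign in dimension six**, when the upper bound of the complex sectional curvatures is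
attained at an eigenbivector of the curvature operator: the pointwise inequality and its integrated
forms. -/
theorem result :
    (∀ (V : Type) [NormedAddCommGroup V] [InnerProductSpace ℝ V]
      (e : OrthonormalBasis (Fin 3 × Bool) ℝ V) (R : V → V → V → V → ℝ), AlgCurv R →
      ∀ κ : ℝ, 0 ≤ κ → CxNonpos (shiftT R κ) → EigenAt R κ →
        roundGB 3 κ ≤ (-1) ^ 3 * gbc e R) ∧
    (∀ (M : Type) [MeasurableSpace M] (μ : Measure M) (K : CurvField 3 M) (κ : M → ℝ),
      (∀ p, 0 ≤ κ p ∧ CxNonpos (shiftT (K.R p) (κ p)) ∧ EigenAt (K.R p) (κ p)) →
      0 ≤ (-1) ^ 3 * ∫ p, K.gb p ∂μ ∧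
      (Integrable K.gb μ → Integrable (fun p => roundGB 3 (κ p)) μ →
        ∫ p, roundGB 3 (κ p) ∂μ ≤ (-1) ^ 3 * ∫ p, K.gb p ∂μ)) :=
  ⟨fun _ _ _ e _ hR _ hκ hC hE => pointA e hR hκ hC hE, fun _ _ μ K κ h => fieldA μ K κ h⟩

end Pool.Agent.Results.MP_5a30bb_gt.ExtremalBivector
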