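import Pool.Agent.R770.NS.Sharp

/-!
# The sign of the Gauss–Bonnet–Chern integrand for a curvature operator from which the curvature
tensor of a skew form is subtracted

`SkewForm A`: `A` is a skew-symmetric bilinear form; `skewCurv A` is the algebraic curvature tensor
`2 A(x,y) A(z,w) + A(x,z) A(y,w) - A(x,w) A(y,z)`, with sectional curvatures `3 A(x,y)²`.
`SymForm h`: `h` is a symmetric bilinear form; `knSq h (x,y,z,w) = h(x,z) h(y,w) - h(x,w) h(y,z)` is
the form induced by `h` on bivectors.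

`NegSkew c δ R` says: `-R = P - skewCurv A`, where `A` is a skew form of arbitrary rank and the
curvature operator of `P` is at least `c knSq h + δ`, for a symmetric form `h` with
`2 A(x,y) ≤ h(x,x) + h(y,y)` (equivalently: `h + i A` is positive semidefinite). The curvature
operator of `-R` may be negative, also if `δ > 0`.

(1) In every even dimension `2 m`, if `R` satisfies `NegSkew 3 δ`, then `(-1)^m` times the
Gauss–Bonnet–Chern integrand of `R` is at least its value for constant curvature `-δ`.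
(2), (3) The integrated forms, for fields of curvature tensors.
(4) The hypothesis holds if `|A(x,y)| ≤ l |x| |y|` and the curvature operator of `P` is at least
`3 l² + δ`.
(5) The constant `3` is the best possible in every even dimension.
-/

set_option autoImplicit false

namespace Pool.Agent.Results.MP_5a30bb_gt.NegativeSkewForm

open Pool.Agent.W666.GB Pool.Agent.W669.HD Pool.Agent.Y195.HF Pool.Agent.R770.NS

theorem result :
    (∀ (m : ℕ) (V : Type) [NormedAddCommGroup V] [InnerProductSpace ℝ V]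
      (e : OrthonormalBasis (Fin m × Bool) ℝ V) (R : V → V → V → V → ℝ) (δ : ℝ),
      AlgCurv R → 0 ≤ δ → NegSkew 3 δ R → roundGB m δ ≤ (-1) ^ m * gbc e R) ∧
    (∀ (m : ℕ) (M : Type) [MeasurableSpace M] (μ : MeasureTheory.Measure M) (K : CurvField m M),
      (∀ p, NegSkew 3 0 (K.R p)) → 0 ≤ (-1) ^ m * ∫ p, K.gb p ∂μ) ∧
    (∀ (m : ℕ) (M : Type) [MeasurableSpace M] (μ : MeasureTheory.Measure M)
      [MeasureTheory.IsFiniteMeasure μ] (K : CurvField m M) (δ : ℝ),
      MeasureTheory.Integrable K.gb μ → 0 ≤ δ → (∀ p, NegSkew 3 δ (K.R p)) →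
        roundGB m δ * μ.real Set.univ ≤ (-1) ^ m * ∫ p, K.gb p ∂μ) ∧
    (∀ (V : Type) [NormedAddCommGroup V] [InnerProductSpace ℝ V] (R : V → V → V → V → ℝ)
      (A : V → V → ℝ) (c l δ : ℝ), SkewForm A → 0 ≤ l → (∀ x y, A x y ≤ l * (‖x‖ * ‖y‖)) →
      OpNonneg (negT (addT (addT R fun x y z w => (c * l ^ 2 + δ) * unitT x y z w)
        (negT (skewCurv A)))) → NegSkew c δ R) ∧
    (∀ (m : ℕ) (V : Type) [NormedAddCommGroup V] [InnerProductSpace ℝ V]
      (e : OrthonormalBasis (Fin m × Bool) ℝ V) (c : ℝ), 1 ≤ m → c < 3 →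
      ∃ R : V → V → V → V → ℝ, AlgCurv R ∧ NegSkew c 0 R ∧ (-1) ^ m * gbc e R < 0) :=
  ⟨fun _ _ _ _ e _ _ hR hδ h => neg_skew e hR hδ h,
    fun _ _ _ μ K h => field_neg μ K h,
    fun _ _ _ μ _ K _ hi hδ h => field_neg' μ K hi hδ h,
    fun _ _ _ _ _ _ _ _ hA hl hAl hn => negSkew_of_norm hA hl hAl hn,
    fun _ _ _ _ e _ hm hc => sharp e hm hc⟩

end Pool.Agent.Results.MP_5a30bb_gt.NegativeSkewForm
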